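import Pool.Agent.Q299.BF.Red

/-!
# It is enough to colour systems whose elements are pairwise separated by many sets
-/

set_option autoImplicit false

namespace Pool.Agent.Q299.BF

open Finset

/-- the number of sets that separate two elements -/
def sep {m n : ℕ} (S : Fin m → Finset (Fin n)) (j k : Fin n) : ℕ :=
  (univ.filter fun i => ¬ (j ∈ S i ↔ k ∈ S i)).card

/-- a signing of discrepancy at most `B` -/
def HasSigning {I J : Type*} (S : I → Finset J) (B : ℝ) : Prop :=
  ∃ x : J → ℝ, (∀ j, x j = 1 ∨ x j = -1) ∧ ∀ i, |∑ j ∈ S i, x j| ≤ B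

theorem HasSigning.transfer {I J I' J' : Type*} [DecidableEq J] [DecidableEq J'] (e : I ≃ I')
    (f : J ≃ J') (S : I → Finset J) {B : ℝ}
    (h : HasSigning (fun q : I' => (S (e.symm q)).map f.toEmbedding) B) : HasSigning S B := by
  obtain ⟨x, hx1, hx2⟩ := h
  refine ⟨fun j => x (f j), fun j => hx1 _, fun i => ?_⟩
  have := hx2 (e i)
  rw [sum_map, Equiv.symm_apply_apply] at this
  exact this

/-- systems whose elements are pairwise far apart are enough -/
theorem equivalence {c C : ℝ} (hc0 : 0 ≤ c) (hc : c < 1 / 4) (hC : 0 ≤ C)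
    (H : ∀ (m n t : ℕ) (S : Fin m → Finset (Fin n)),
      (∀ j, (univ.filter fun i => j ∈ S i).card ≤ t) →
      (∀ j k, j ≠ k → c * t < sep S j k) → HasSigning S (C * Real.sqrt t)) (t : ℕ) :
    ∀ (m n : ℕ) (S : Fin m → Finset (Fin n)), (∀ j, (univ.filter fun i => j ∈ S i).card ≤ t) →
      HasSigning S (C / (1 - 2 * Real.sqrt c) * Real.sqrt t) := by
  classical
  have hsc : Real.sqrt c < 1 / 2 := by
    rw [Real.sqrt_lt' (by norm_num)]
    norm_num
    linarith
  have hsc0 := Real.sqrt_nonneg c
  have hK : 0 ≤ C / (1 - 2 * Real.sqrt c) := div_nonneg hC (by linarith)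
  have hKe : C + 2 * (C / (1 - 2 * Real.sqrt c)) * Real.sqrt c = C / (1 - 2 * Real.sqrt c) := by
    have : 1 - 2 * Real.sqrt c ≠ 0 := by linarith
    field_simp
    ring
  set K : ℝ := C / (1 - 2 * Real.sqrt c) with hKdef
  induction t using Nat.strong_induction_on with
  | _ t ih =>
    intro m n S hdeg
    rcases Nat.eq_zero_or_pos t with ht | ht
    · refine ⟨fun _ => 1, fun _ => Or.inl rfl, fun i => ?_⟩
      have hS : S i = ∅ := by
        apply eq_empty_of_forall_notMem
        intro j hj
        have h1 := hdeg j
        rw [ht] at h1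
        have h2 : i ∈ univ.filter fun i => j ∈ S i := mem_filter.2 ⟨mem_univ _, hj⟩
        have := card_pos.2 ⟨i, h2⟩
        omega
      rw [hS, sum_empty, abs_zero]
      positivity
    have htR : (1 : ℝ) ≤ t := by exact_mod_cast ht
    set r : ℕ := ⌊c * t⌋₊ with hr
    have hrt : (r : ℝ) ≤ c * t := Nat.floor_le (by positivity)
    have hrlt : r < t := by
      have : (r : ℝ) < t := by nlinarith
      exact_mod_cast this
    obtain ⟨u, -, hsep, M, a, b, -, hab, -, hx⟩ := KE.matching (ind S)
      (fun j k => sep S j k ≤ r) univ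
    -- the differences
    let D : Fin m × Bool → Finset (Fin M) := fun q => univ.filter fun p =>
      if q.2 then a p ∈ S q.1 ∧ b p ∉ S q.1 else b p ∈ S q.1 ∧ a p ∉ S q.1
    have hDdeg : ∀ p, (univ.filter fun q => p ∈ D q).card ≤ r := by
      intro p
      refine le_trans ?_ (hab p).2.2
      unfold sep
      apply card_le_card_of_injOn (fun q => q.1)
      · intro q hq
        rw [mem_coe, mem_filter] at hq ⊢
        refine ⟨mem_univ _, ?_⟩
        have h1 := (mem_filter.1 hq.2).2
        rcases q with ⟨i, b'⟩
        cases b' <;> simp at h1 ⊢ <;> tauto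
      · intro q hq q' hq' h
        rw [mem_coe, mem_filter] at hq hq'
        have h1 := (mem_filter.1 hq.2).2
        have h2 := (mem_filter.1 hq'.2).2
        rcases q with ⟨i, b'⟩
        rcases q' with ⟨i', b''⟩
        simp only at h
        subst h
        cases b' <;> cases b'' <;> simp at h1 h2 ⊢ <;> tauto
    have hD : HasSigning D (K * Real.sqrt r) := by
      apply HasSigning.transfer (Fintype.equivFin _) (Equiv.refl _)
      apply ih r hrlt
      intro p
      refine le_trans ?_ (hDdeg p)
      apply card_le_card_of_injOn (fun q => (Fintype.equivFin _).symm q)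
      · intro q hq
        rw [mem_coe, mem_filter] at hq ⊢
        refine ⟨mem_univ _, ?_⟩
        have h1 := hq.2
        simpa using h1
      · intro q _ q' _ h
        exact (Equiv.injective _) h
    obtain ⟨σ, hσ1, hσ2⟩ := hD
    -- the rest
    have hR : HasSigning (fun i => (univ.filter fun p : u => (p : Fin n) ∈ S i))
        (C * Real.sqrt t) := by
      apply HasSigning.transfer (Equiv.refl _) (Finset.equivFin u)
      apply H
      · intro p
        refine le_trans (card_le_card ?_) (hdeg (((Finset.equivFin u).symm p : u) : Fin n))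
        intro i hi
        rw [mem_filter] at hi ⊢
        refine ⟨mem_univ _, ?_⟩
        obtain ⟨q, hq, hqp⟩ := mem_map.1 hi.2
        have : q = (Finset.equivFin u).symm p := by
          rw [← hqp]
          simp
        rw [← this]
        exact (mem_filter.1 hq).2
      · intro p p' hpp
        have h1 : ((Finset.equivFin u).symm p : u) ≠ (Finset.equivFin u).symm p' := fun h =>
          hpp ((Equiv.injective _) h)
        have h2 := hsep _ ((Finset.equivFin u).symm p).2 _ ((Finset.equivFin u).symm p').2
          (fun h => h1 (Subtype.ext h))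
        have h3 : c * t < (sep S (((Finset.equivFin u).symm p : u) : Fin n)
            (((Finset.equivFin u).symm p' : u) : Fin n) : ℝ) := by
          have h4 : r + 1 ≤ sep S (((Finset.equivFin u).symm p : u) : Fin n)
            (((Finset.equivFin u).symm p' : u) : Fin n) := not_le.1 h2
          have h5 := Nat.lt_floor_add_one (c * t)
          have h6 : (r : ℝ) + 1 ≤ (sep S (((Finset.equivFin u).symm p : u) : Fin n)
            (((Finset.equivFin u).symm p' : u) : Fin n) : ℝ) := by exact_mod_cast h4
          linarith
        refine h3.trans_le ?_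
        have h7 : ∀ (i : Fin m) (q : Fin u.card),
            q ∈ (univ.filter fun p : u => (p : Fin n) ∈ S i).map
              (Finset.equivFin u).toEmbedding ↔
              (((Finset.equivFin u).symm q : u) : Fin n) ∈ S i := by
          intro i q
          rw [mem_map]
          constructor
          · rintro ⟨z, hz, hzq⟩
            have : z = (Finset.equivFin u).symm q := by
              rw [← hzq]
              simp
            rw [← this]
            exact (mem_filter.1 hz).2
          · intro h
            exact ⟨(Finset.equivFin u).symm q, mem_filter.2 ⟨mem_univ _, h⟩, by simp⟩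
        unfold sep
        apply le_of_eq
        congr 2
        ext i
        simp only [mem_filter, mem_univ, true_and]
        exact (not_congr (iff_congr (h7 i p) (h7 i p'))).symm
    obtain ⟨y, hy1, hy2⟩ := hR
    obtain ⟨x, hx1, hx2⟩ := hx σ hσ1 (fun j => if h : j ∈ u then y ⟨j, h⟩ else 1)
      (fun j hj => by
        rw [dif_pos hj]
        exact hy1 _)
    refine ⟨x, fun j => hx1 j (mem_univ j), fun i => ?_⟩
    have h1 := congrFun hx2 i
    rw [sum_ind, inter_univ, Pi.add_apply, sum_ind] at h1
    rw [h1]
    have h2 : ∑ j ∈ S i ∩ u, (if h : j ∈ u then y ⟨j, h⟩ else 1) =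
        ∑ p ∈ univ.filter (fun p : u => (p : Fin n) ∈ S i), y p := by
      symm
      apply sum_bij (fun (p : u) _ => (p : Fin n))
      · intro p hp
        exact mem_inter.2 ⟨(mem_filter.1 hp).2, p.2⟩
      · intro p _ p' _ h
        exact Subtype.ext h
      · intro j hj
        rw [mem_inter] at hj
        exact ⟨⟨j, hj.2⟩, mem_filter.2 ⟨mem_univ _, hj.1⟩, rfl⟩
      · intro p _
        rw [dif_pos p.2]
    have h3 : (∑ p, σ p • (ind S (a p) - ind S (b p))) i =
        ∑ p ∈ D (i, true), σ p - ∑ p ∈ D (i, false), σ p := by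
      rw [Finset.sum_apply, sum_filter, sum_filter, ← sum_sub_distrib]
      refine sum_congr rfl fun p _ => ?_
      rw [Pi.smul_apply, smul_eq_mul, Pi.sub_apply]
      unfold ind
      by_cases h1 : a p ∈ S i <;> by_cases h2 : b p ∈ S i <;> simp [h1, h2]
    rw [h2, h3]
    refine (abs_add_le _ _).trans ?_
    have h4 := hy2 i
    have h5 := abs_sub (∑ p ∈ D (i, true), σ p) (∑ p ∈ D (i, false), σ p)
    have h6 := hσ2 (i, true)
    have h7 := hσ2 (i, false)
    have h8 : Real.sqrt r ≤ Real.sqrt c * Real.sqrt t := by
      rw [← Real.sqrt_mul hc0]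
      exact Real.sqrt_le_sqrt hrt
    have h9 := mul_le_mul_of_nonneg_left h8 hK
    have h10 : K * Real.sqrt t = C * Real.sqrt t + 2 * (K * (Real.sqrt c * Real.sqrt t)) := by
      nth_rewrite 1 [← hKe]
      ring
    rw [h10]
    linarith

end Pool.Agent.Q299.BF
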