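import Pool.Agent.H294R2.BF.L1
import Pool.Agent.Q299.KE.Match

/-!
# Pairing elements that are contained in almost the same sets
-/

set_option autoImplicit false

namespace Pool.Agent.Q299.BF

open Finset

variable {m n : ℕ}

/-- every two elements of `X` are separated by more than `r` sets -/
def ElementsApart (S : Fin m → Finset (Fin n)) (r : ℕ) (X : Finset (Fin n)) : Prop :=
  ∀ j ∈ X, ∀ k ∈ X, j ≠ k → r < (univ.filter fun i => ¬ (j ∈ S i ↔ k ∈ S i)).card

/-- every two sets with indices in `Y` differ in more than `r` elements -/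
def SetsApart (S : Fin m → Finset (Fin n)) (r : ℕ) (Y : Finset (Fin m)) : Prop :=
  ∀ i ∈ Y, ∀ i' ∈ Y, i ≠ i' → r < (symmDiff (S i) (S i')).card

/-- incidence vector of an element -/
def ind (S : Fin m → Finset (Fin n)) (j : Fin n) : Fin m → ℝ := fun i => if j ∈ S i then 1 else 0

theorem sum_ind (S : Fin m → Finset (Fin n)) (s : Finset (Fin n)) (x : Fin n → ℝ) (i : Fin m) :
    (∑ j ∈ s, x j • ind S j) i = ∑ j ∈ S i ∩ s, x j := by
  rw [Finset.sum_apply, inter_comm, ← filter_mem_eq_inter, sum_filter]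
  refine sum_congr rfl fun j _ => ?_
  unfold ind
  rw [Pi.smul_apply, smul_eq_mul]
  split_ifs <;> simp

theorem reduction (S : Fin m → Finset (Fin n)) (r : ℕ) :
    ∃ X : Finset (Fin n), ElementsApart S r X ∧ ∀ y : Fin n → ℝ, (∀ j, y j = 1 ∨ y j = -1) →
      ∃ x : Fin n → ℝ, (∀ j, x j = 1 ∨ x j = -1) ∧
        ∀ i, |∑ j ∈ S i, x j| ≤ r + |∑ j ∈ S i ∩ X, y j| := by
  classical
  obtain ⟨u, -, hsep, M, a, b, -, hab, -, hx⟩ := KE.matching (ind S)
    (fun j k => (univ.filter fun i => ¬ (j ∈ S i ↔ k ∈ S i)).card ≤ r) univ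
  obtain ⟨σ, hσ1, hσ2⟩ := H294BF.l1_signing (fun (i : Fin m) (p : Fin M) =>
    ind S (a p) i - ind S (b p) i) r (Nat.cast_nonneg r) (by
      intro p
      have h1 : ∑ i, |ind S (a p) i - ind S (b p) i| =
          ((univ.filter fun i => ¬ (a p ∈ S i ↔ b p ∈ S i)).card : ℝ) := by
        rw [card_filter]
        push_cast
        refine sum_congr rfl fun i _ => ?_
        unfold ind
        by_cases h1 : a p ∈ S i <;> by_cases h2 : b p ∈ S i <;> simp [h1, h2]
      rw [h1]
      exact_mod_cast (hab p).2.2)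
  refine ⟨u, fun j hj k hk hjk => not_le.1 (hsep j hj k hk hjk), fun y hy => ?_⟩
  obtain ⟨x, hx1, hx2⟩ := hx σ hσ1 y (fun j _ => hy j)
  refine ⟨x, fun j => hx1 j (mem_univ j), fun i => ?_⟩
  have h1 := congrFun hx2 i
  rw [sum_ind, inter_univ, Pi.add_apply, sum_ind] at h1
  rw [h1]
  refine (abs_add_le _ _).trans ?_
  have h2 := hσ2 i
  have h3 : (∑ p, σ p • (ind S (a p) - ind S (b p))) i =
      ∑ p, (ind S (a p) i - ind S (b p) i) * σ p := by
    rw [Finset.sum_apply]
    refine sum_congr rfl fun p _ => ?_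
    rw [Pi.smul_apply, smul_eq_mul, Pi.sub_apply, mul_comm]
  rw [h3]
  linarith

/-- a maximal family of sets that differ much -/
theorem rows (T : Fin m → Finset (Fin n)) (r : ℕ) :
    ∃ Y : Finset (Fin m), SetsApart T r Y ∧ ∀ i, ∃ i' ∈ Y, (symmDiff (T i) (T i')).card ≤ r := by
  classical
  obtain ⟨Y, hY⟩ := (Finset.univ : Finset (Finset (Fin m))).finite_toSet.exists_maximalFor
    (fun Y => if SetsApart T r Y then Y.card + 1 else 0) _ ⟨∅, by simp⟩
  have hmax : ∀ Z : Finset (Fin m), (if SetsApart T r Z then Z.card + 1 else 0) ≤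
      (if SetsApart T r Y then Y.card + 1 else 0) := by
    intro Z
    by_contra hcon
    exact absurd (hY.2 (by simp) (not_le.1 hcon).le) (by simpa using hcon)
  have h0 : SetsApart T r Y := by
    by_contra hcon
    have h1 := hmax ∅
    have h2 : SetsApart T r ∅ := by
      intro i hi
      simp at hi
    rw [if_pos h2, if_neg hcon] at h1
    simp at h1
  refine ⟨Y, h0, fun i => ?_⟩
  by_contra hcon
  push Not at hcon
  have hi : i ∉ Y := by
    intro hi
    have := hcon i hi
    simp at this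
  have h1 : SetsApart T r (insert i Y) := by
    intro a ha b hb hab
    rw [mem_insert] at ha hb
    rcases ha with ha | ha
    · rcases hb with hb | hb
      · exact absurd (ha.trans hb.symm) hab
      · rw [ha]
        exact hcon b hb
    · rcases hb with hb | hb
      · rw [hb, symmDiff_comm]
        exact hcon a ha
      · exact h0 a ha b hb hab
  have h2 := hmax (insert i Y)
  rw [if_pos h1, if_pos h0, card_insert_of_notMem hi] at h2
  omega

theorem close_rows (A B : Finset (Fin n)) (x : Fin n → ℝ) (hx : ∀ j, x j = 1 ∨ x j = -1) {r : ℕ}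
    (h : (symmDiff A B).card ≤ r) : |∑ j ∈ A, x j| ≤ r + |∑ j ∈ B, x j| := by
  classical
  have h1 : ∑ j ∈ A, x j = ∑ j ∈ A \ B, x j + ∑ j ∈ A ∩ B, x j := by
    rw [← sum_union (disjoint_sdiff_inter A B), sdiff_union_inter]
  have h2 : ∑ j ∈ B, x j = ∑ j ∈ B \ A, x j + ∑ j ∈ A ∩ B, x j := by
    rw [inter_comm, ← sum_union (disjoint_sdiff_inter B A), sdiff_union_inter]
  have hb : ∀ D : Finset (Fin n), |∑ j ∈ D, x j| ≤ D.card := by
    intro D
    refine (abs_sum_le_sum_abs _ _).trans ?_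
    refine (sum_le_card_nsmul _ _ 1 fun j _ => ?_).trans (by simp)
    rcases hx j with h | h <;> rw [h] <;> simp
  have h3 : ((A \ B).card : ℝ) + ((B \ A).card : ℝ) ≤ r := by
    have h4 : (symmDiff A B).card = (A \ B).card + (B \ A).card := by
      rw [symmDiff_def]
      exact card_union_of_disjoint disjoint_sdiff_sdiff
    rw [h4] at h
    exact_mod_cast h
  have h5 := hb (A \ B)
  have h6 := hb (B \ A)
  have h7 : ∑ j ∈ A, x j = ∑ j ∈ A \ B, x j - ∑ j ∈ B \ A, x j + ∑ j ∈ B, x j := by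
    rw [h1, h2]
    ring
  rw [h7]
  refine (abs_add_le _ _).trans ?_
  have h8 := abs_sub (∑ j ∈ A \ B, x j) (∑ j ∈ B \ A, x j)
  linarith

end Pool.Agent.Q299.BF
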