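import Pool.Agent.Results.MP_e8ee11_co.BeckFialaIterFree
import Pool.Agent.Q299.BF.Red

/-!
# Set systems with few separated elements or few separated sets
-/

set_option autoImplicit false

namespace Pool.Agent.Q299.BF

open Finset

theorem main : ∃ C : ℝ, 0 < C ∧ ∀ m n t r s N k : ℕ, 1 ≤ t → 1 ≤ s →
    ∀ S : Fin m → Finset (Fin n), (∀ j, (univ.filter fun i => j ∈ S i).card ≤ t) →
    (∀ X, ElementsApart S r X → ∀ i, (S i ∩ X).card ≤ s) →
    ((∀ X, ElementsApart S r X → X.card ≤ N) ∨ (∀ Y, SetsApart S r Y → Y.card ≤ N)) →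
    ∃ x : Fin n → ℝ, (∀ j, x j = 1 ∨ x j = -1) ∧ ∀ i, |∑ j ∈ S i, x j| ≤
      2 * r + C * k * (Real.sqrt t + (1 + Real.log t) ^ 2 * Real.sqrt (Real.log s))
        + C * (Real.sqrt t + (1 + Real.log t) ^ (3 / 2 : ℝ)
            * Real.sqrt ((fun x : ℝ => Real.log (1 + x))^[k + 1] N)) := by
  classical
  obtain ⟨C0, hC0⟩ := Results.MP_e8ee11_co.BeckFialaIterFree.result
  refine ⟨max C0 1, lt_max_of_lt_right one_pos, fun m n t r s N k ht hs S hdeg hloc hN => ?_⟩
  obtain ⟨X, hX, hred⟩ := reduction S r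
  obtain ⟨Y, hY, hYc⟩ := rows (fun i => S i ∩ X) r
  -- separated traces are separated
  have hYS : SetsApart S r Y := by
    intro i hi i' hi' hne
    refine (hY i hi i' hi' hne).trans_le (card_le_card ?_)
    intro j hj
    rw [mem_symmDiff, mem_inter, mem_inter] at hj
    rw [mem_symmDiff]
    rcases hj with ⟨⟨h1, h2⟩, h3⟩ | ⟨⟨h1, h2⟩, h3⟩
    · exact Or.inl ⟨h1, fun h => h3 ⟨h, h2⟩⟩
    · exact Or.inr ⟨h1, fun h => h3 ⟨h, h2⟩⟩
  have hmin : min Y.card X.card ≤ N := by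
    rcases hN with h | h
    · exact (min_le_right _ _).trans (h X hX)
    · exact (min_le_left _ _).trans (h Y hYS)
  -- the small system
  let eX := X.equivFin
  let eY := Y.equivFin
  let T : Fin Y.card → Finset (Fin X.card) := fun q =>
    univ.filter fun p => ((eX.symm p : Fin n)) ∈ S (eY.symm q)
  have hTdeg : ∀ p, (univ.filter fun q => p ∈ T q).card ≤ t := by
    intro p
    refine le_trans ?_ (hdeg (eX.symm p))
    apply card_le_card_of_injOn (fun q => ((eY.symm q : Fin m)))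
    · intro q hq
      rw [mem_coe, mem_filter] at hq ⊢
      exact ⟨mem_univ _, (mem_filter.1 hq.2).2⟩
    · intro q _ q' _ h
      exact eY.symm.injective (Subtype.ext h)
  have hTsize : ∀ q, (T q).card ≤ s := by
    intro q
    refine le_trans ?_ (hloc X hX (eY.symm q))
    apply card_le_card_of_injOn (fun p => ((eX.symm p : Fin n)))
    · intro p hp
      rw [mem_coe] at hp ⊢
      exact mem_inter.2 ⟨(mem_filter.1 hp).2, (eX.symm p).2⟩
    · intro q _ q' _ h
      exact eX.symm.injective (Subtype.ext h)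
  obtain ⟨⟨χ, hχ1, hχ2⟩, -⟩ := hC0 Y.card X.card t s ht hs T hTdeg hTsize k (fun _ => 0)
    (fun _ => by simp)
  -- the signs on `X`
  let y : Fin n → ℝ := fun j => if h : j ∈ X then (χ (eX ⟨j, h⟩) : ℝ) else 1
  have hy : ∀ j, y j = 1 ∨ y j = -1 := by
    intro j
    by_cases h : j ∈ X
    · simp only [y, dif_pos h]
      rcases hχ1 (eX ⟨j, h⟩) with h | h <;> rw [h] <;> simp
    · simp only [y, dif_neg h, true_or]
  have hsum : ∀ q, ∑ j ∈ S (eY.symm q) ∩ X, y j = ∑ p ∈ T q, ((χ p : ℝ) - 0) := by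
    intro q
    symm
    apply sum_bij (fun p _ => (eX.symm p : Fin n))
    · intro p hp
      exact mem_inter.2 ⟨(mem_filter.1 hp).2, (eX.symm p).2⟩
    · intro p _ p' _ h
      exact eX.symm.injective (Subtype.ext h)
    · intro j hj
      rw [mem_inter] at hj
      refine ⟨eX ⟨j, hj.2⟩, ?_, ?_⟩
      · simp only [T, mem_filter, mem_univ, true_and, Equiv.symm_apply_apply]
        exact hj.1
      · simp
    · intro p _
      simp only [y, sub_zero]
      rw [dif_pos (eX.symm p).2]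
      congr 2
      simp
  obtain ⟨x, hx1, hx2⟩ := hred y hy
  refine ⟨x, hx1, fun i => ?_⟩
  obtain ⟨i', hi', hc⟩ := hYc i
  have h1 := hx2 i
  have h2 := close_rows _ _ y hy hc
  have h3 := hχ2 (eY ⟨i', hi'⟩)
  rw [← hsum, Equiv.symm_apply_apply] at h3
  have hC1 : C0 ≤ max C0 1 := le_max_left _ _
  have hC2 : (1 : ℝ) ≤ max C0 1 := le_max_right _ _
  set Cm := max C0 1
  have hlt : 0 ≤ Real.log (t : ℝ) := Real.log_natCast_nonneg t
  have hiter : (fun x : ℝ => Real.log (1 + x))^[k + 1] (min Y.card X.card : ℕ) ≤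
      (fun x : ℝ => Real.log (1 + x))^[k + 1] (N : ℝ) :=
    H167KN.slog_iter_mono (k + 1) (Nat.cast_nonneg _) (by exact_mod_cast hmin)
  have h4 : Real.sqrt ((fun x : ℝ => Real.log (1 + x))^[k + 1] (min Y.card X.card : ℕ)) ≤
      Real.sqrt ((fun x : ℝ => Real.log (1 + x))^[k + 1] (N : ℝ)) := Real.sqrt_le_sqrt hiter
  have h5 : (1 + Real.log t) ^ (3 / 2 : ℝ) *
      Real.sqrt ((fun x : ℝ => Real.log (1 + x))^[k + 1] (min Y.card X.card : ℕ)) ≤
      (1 + Real.log t) ^ (3 / 2 : ℝ) *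
      Real.sqrt ((fun x : ℝ => Real.log (1 + x))^[k + 1] (N : ℝ)) :=
    mul_le_mul_of_nonneg_left h4 (by positivity)
  have h6 : C0 * k * (Real.sqrt t + (1 + Real.log t) ^ 2 * Real.sqrt (Real.log s)) ≤
      Cm * k * (Real.sqrt t + (1 + Real.log t) ^ 2 * Real.sqrt (Real.log s)) := by
    apply mul_le_mul_of_nonneg_right _ (by positivity)
    exact mul_le_mul_of_nonneg_right hC1 (Nat.cast_nonneg _)
  have h7 : C0 * (Real.sqrt t + (1 + Real.log t) ^ (3 / 2 : ℝ) *
      Real.sqrt ((fun x : ℝ => Real.log (1 + x))^[k + 1] (min Y.card X.card : ℕ))) ≤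
      Cm * (Real.sqrt t + (1 + Real.log t) ^ (3 / 2 : ℝ) *
      Real.sqrt ((fun x : ℝ => Real.log (1 + x))^[k + 1] (N : ℝ))) := by
    apply mul_le_mul hC1 _ (by positivity) (by linarith)
    linarith
  linarith

/-- the Beck–Fiala bound when at most `exp (t / polylog t)` elements or sets are far apart -/
theorem main_sqrt : ∃ C : ℝ, 0 < C ∧ ∀ m n t : ℕ, 1 ≤ t →
    ∀ S : Fin m → Finset (Fin n), (∀ j, (univ.filter fun i => j ∈ S i).card ≤ t) →
    ((∀ X, ElementsApart S (Nat.sqrt t) X →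
        (X.card : ℝ) ≤ Real.exp (t / (1 + Real.log t) ^ 3)) ∨
      (∀ Y, SetsApart S (Nat.sqrt t) Y → (Y.card : ℝ) ≤ Real.exp (t / (1 + Real.log t) ^ 3))) →
    ∃ x : Fin n → ℝ, (∀ j, x j = 1 ∨ x j = -1) ∧ ∀ i, |∑ j ∈ S i, x j| ≤ C * Real.sqrt t := by
  obtain ⟨C, hC, h⟩ := main
  refine ⟨2 + 20 * C, by positivity, fun m n t ht S hdeg hN => ?_⟩
  have htR : (1 : ℝ) ≤ t := by exact_mod_cast ht
  have hlt : 0 ≤ Real.log (t : ℝ) := Real.log_natCast_nonneg t
  set E : ℝ := Real.exp (t / (1 + Real.log t) ^ 3) with hE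
  have hE1 : 1 ≤ E := Real.one_le_exp (by positivity)
  obtain ⟨x, hx1, hx2⟩ := h m n t (Nat.sqrt t) (n + 1) ⌊E⌋₊ 0 ht (by omega) S hdeg
    (fun X _ i => by
      refine (card_le_card inter_subset_right).trans ((card_le_univ X).trans ?_)
      rw [Fintype.card_fin]
      omega)
    (by
      rcases hN with hN | hN
      · left
        intro X hX
        exact Nat.le_floor (hN X hX)
      · right
        intro X hX
        exact Nat.le_floor (hN X hX))
  refine ⟨x, hx1, fun i => (hx2 i).trans ?_⟩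
  rw [Nat.cast_zero, mul_zero, zero_mul, add_zero, zero_add, Function.iterate_one]
  have h1 : (Nat.sqrt t : ℝ) ≤ Real.sqrt t := by
    apply Real.le_sqrt_of_sq_le
    have := Nat.sqrt_le' t
    exact_mod_cast this
  have h2 : Real.log (1 + (⌊E⌋₊ : ℝ)) ≤ 1 + t / (1 + Real.log t) ^ 3 := by
    have h3 : (1 : ℝ) + ⌊E⌋₊ ≤ 2 * E := by
      have := Nat.floor_le (show 0 ≤ E by linarith)
      linarith
    have h4 := Real.log_le_log (by positivity) h3
    rw [Real.log_mul (by norm_num) (by positivity), hE, Real.log_exp] at h4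
    have := Real.log_two_lt_d9
    linarith
  have h3 : (1 + Real.log t) ^ (3 / 2 : ℝ) * Real.sqrt (Real.log (1 + (⌊E⌋₊ : ℝ))) ≤
      16 * Real.sqrt t := by
    have h4 : (1 + Real.log t) ^ (3 / 2 : ℝ) = Real.sqrt ((1 + Real.log t) ^ 3) := by
      rw [Real.sqrt_eq_rpow, ← Real.rpow_natCast, ← Real.rpow_mul (by linarith)]
      norm_num
    rw [h4, ← Real.sqrt_mul (by positivity), Real.sqrt_le_left (by positivity)]
    have h5 := H167KM.cube_le (t : ℝ) htR
    have h6 : (1 + Real.log t) ^ 3 * Real.log (1 + (⌊E⌋₊ : ℝ)) ≤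
        (1 + Real.log t) ^ 3 * (1 + t / (1 + Real.log t) ^ 3) :=
      mul_le_mul_of_nonneg_left h2 (by positivity)
    have h7 : (1 + Real.log t) ^ 3 * (1 + t / (1 + Real.log t) ^ 3) =
        (1 + Real.log t) ^ 3 + t := by
      have : (1 + Real.log (t : ℝ)) ^ 3 ≠ 0 := by positivity
      field_simp
    have h8 : Real.sqrt t ≤ t := by
      rw [Real.sqrt_le_left (by linarith)]
      nlinarith
    rw [mul_pow, Real.sq_sqrt (by linarith)]
    nlinarith
  have h9 := mul_le_mul_of_nonneg_left h3 hC.le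
  have h10 : 0 ≤ C * Real.sqrt t := by positivity
  nlinarith

end Pool.Agent.Q299.BF
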